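import Mathlib

set_option autoImplicit false

namespace Pool.Agent.L1opt

/-- causal sequences of `p × q` real matrices -/
abbrev MSeq (p q : ℕ) : Type := ℕ → Matrix (Fin p) (Fin q) ℝ

/-- convolution product `(XY)(k) = ∑_{t=0}^k X(t) Y(k-t)` -/
def conv {p q r : ℕ} (X : MSeq p q) (Y : MSeq q r) : MSeq p r :=
  fun k => ∑ t ∈ Finset.range (k + 1), X t * Y (k - t)

/-- `X ∈ ℓ₁^{p×q}` -/
def IsL1 {p q : ℕ} (X : MSeq p q) : Prop := ∀ i j, Summable fun k => |X k i j|

/-- `‖X‖₁ = max_i ∑_j ∑_k |X_ij(k)|` -/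
noncomputable def nrm {p q : ℕ} (X : MSeq p q) : ℝ := ⨆ i, ∑ j, ∑' k, |X k i j|

/-- the `λ`-transform of the `(i,j)` entry, as a power series -/
noncomputable def hat {p q : ℕ} (X : MSeq p q) (i : Fin p) (j : Fin q) : PowerSeries ℝ :=
  PowerSeries.mk fun k => X k i j

/-- every entry of the `λ`-transform is a rational function of `λ` -/
def IsRat {p q : ℕ} (X : MSeq p q) : Prop :=
  ∀ i j, ∃ P Q : Polynomial ℝ, Q ≠ 0 ∧ (Q : PowerSeries ℝ) * hat X i j = (P : PowerSeries ℝ)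

/-- full row normal rank: the rows of the `λ`-transform are linearly independent over the rational
functions (equivalently, over the polynomials) -/
def FullRow {p q : ℕ} (X : MSeq p q) : Prop :=
  ∀ c : Fin p → Polynomial ℝ, (∀ j, ∑ i, (c i : PowerSeries ℝ) * hat X i j = 0) → c = 0

/-- full column normal rank -/
def FullCol {p q : ℕ} (X : MSeq p q) : Prop :=
  ∀ c : Fin q → Polynomial ℝ, (∀ i, ∑ j, (c j : PowerSeries ℝ) * hat X i j = 0) → c = 0

/-- `Q` is an optimal solution of `inf_{Q ∈ ℓ₁} ‖H - U Q V‖₁` -/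
def IsOptimal {nz nw nu ny : ℕ} (H : MSeq nz nw) (U : MSeq nz nu) (V : MSeq ny nw)
    (Q : MSeq nu ny) : Prop :=
  IsL1 Q ∧ ∀ Q' : MSeq nu ny, IsL1 Q' → nrm (H - conv (conv U Q) V) ≤ nrm (H - conv (conv U Q') V)

end Pool.Agent.L1opt
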