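import Mathlib

set_option autoImplicit false
open Filter Topology

namespace Pool.Agent.L1opt

/-- `f(x) = max (cos x) 0` -/
noncomputable def fc (x : ℝ) : ℝ := max (Real.cos x) 0

lemma fc_cont : Continuous fc := by unfold fc; fun_prop

lemma sin_int_ne (n : ℤ) (hn : n ≠ 0) : Real.sin (n : ℝ) ≠ 0 := by
  intro h
  rw [Real.sin_eq_zero_iff] at h
  obtain ⟨m, hm⟩ := h
  have hm0 : m ≠ 0 := by
    rintro rfl
    apply hn
    have : (0 : ℝ) = (n : ℝ) := by simpa using hm
    exact_mod_cast this.symm
  have hirr := irrational_pi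
  apply hirr
  refine ⟨(n : ℚ) / (m : ℚ), ?_⟩
  push_cast
  rw [← hm]
  field_simp

/-- a continuous `2π`-periodic function vanishing at all large integers vanishes -/
lemma zero_of_nat (F : ℝ → ℝ) (hF : Continuous F) (hper : Function.Periodic F (2 * Real.pi))
    (K : ℕ) (h : ∀ k ≥ K, F (k : ℕ) = 0) (x : ℝ) : F x = 0 := by
  have : Fact (0 < 2 * Real.pi) := ⟨Real.two_pi_pos⟩
  have hirr : Irrational (1 / (2 * Real.pi)) := by
    rw [one_div]
    apply Irrational.inv
    have := irrational_pi
    exact Irrational.ratCast_mul this (q := 2) (by norm_num)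
  have hdense := (AddCircle.denseRange_zsmul_coe_iff (a := 1) (p := 2 * Real.pi)).mpr hirr
  have hcl : (x : AddCircle (2 * Real.pi)) ∈
      (AddSubgroup.zmultiples ((1 : ℝ) : AddCircle (2 * Real.pi))).topologicalClosure := by
    change (x : AddCircle (2 * Real.pi)) ∈
      closure (AddSubgroup.zmultiples ((1 : ℝ) : AddCircle (2 * Real.pi)) : Set (AddCircle (2 * Real.pi)))
    rw [AddSubgroup.coe_zmultiples]
    exact hdense _
  have h1 := mapClusterPt_atTop_nsmul_iff_mem_topologicalClosure_zmultiples.mpr hcl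
  have hc : Continuous (hper.lift : AddCircle (2 * Real.pi) → ℝ) := continuous_coinduced_dom.mpr hF
  by_contra hne
  have h2 : {y : AddCircle (2 * Real.pi) | hper.lift y ≠ 0} ∈ 𝓝 (x : AddCircle (2 * Real.pi)) := by
    apply IsOpen.mem_nhds
    · exact isOpen_ne_fun hc continuous_const
    · exact hne
  have h3 := h1.frequently h2
  obtain ⟨k, hk, hk2⟩ := (h3.and_eventually (eventually_ge_atTop K)).exists
  apply hk
  have e : (k • ((1 : ℝ) : AddCircle (2 * Real.pi))) = ((k : ℝ) : AddCircle (2 * Real.pi)) := by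
    rw [← AddCircle.coe_nsmul]; simp
  rw [e]
  exact h k hk2

/-- The kink argument. -/
lemma kink (d : ℕ) (c : Fin (d + 1) → ℝ) (h : ∀ x : ℝ, ∑ j, c j * fc (x + (j : ℕ)) = 0) : c = 0 := by
  by_contra hne
  obtain ⟨j₀, hj₀⟩ : ∃ j, c j ≠ 0 := by
    by_contra hcon
    push Not at hcon
    exact hne (funext hcon)
  set x₀ : ℝ := Real.pi / 2 - (j₀ : ℕ) with hx₀
  -- the other terms are differentiable at `x₀`
  have hd : ∀ j, j ≠ j₀ → DifferentiableAt ℝ (fun x => c j * fc (x + (j : ℕ))) x₀ := by
    intro j hj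
    have hcos : Real.cos (x₀ + (j : ℕ)) ≠ 0 := by
      have e : x₀ + (j : ℕ) = (((j : ℕ) : ℤ) - ((j₀ : ℕ) : ℤ) : ℤ) + Real.pi / 2 := by
        rw [hx₀]; push_cast; ring
      rw [e, Real.cos_add_pi_div_two]
      apply neg_ne_zero.mpr
      apply sin_int_ne
      intro h0
      apply hj
      apply Fin.ext
      omega
    have hcd : DifferentiableAt ℝ (fun x => Real.cos (x + (j : ℕ))) x₀ := by fun_prop
    have hcc : ContinuousAt (fun x => Real.cos (x + (j : ℕ))) x₀ := hcd.continuousAt
    rcases lt_or_gt_of_ne hcos with hneg | hpos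
    · have : (fun x => c j * fc (x + (j : ℕ))) =ᶠ[𝓝 x₀] fun _ => 0 := by
        filter_upwards [hcc.eventually_lt_const hneg] with x hx
        unfold fc
        rw [max_eq_right hx.le, mul_zero]
      exact (differentiableAt_const (0 : ℝ)).congr_of_eventuallyEq this
    · have : (fun x => c j * fc (x + (j : ℕ))) =ᶠ[𝓝 x₀] fun x => c j * Real.cos (x + (j : ℕ)) := by
        filter_upwards [hcc.eventually_const_lt hpos] with x hx
        unfold fc
        rw [max_eq_left hx.le]
      exact (hcd.const_mul _).congr_of_eventuallyEq this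
  have hd2 : DifferentiableAt ℝ (fun x => ∑ j ∈ Finset.univ.erase j₀, c j * fc (x + (j : ℕ))) x₀ := by
    apply DifferentiableAt.fun_sum
    intro j hj
    exact hd j (Finset.ne_of_mem_erase hj)
  have hd3 : DifferentiableAt ℝ (fun x => fc (x + (j₀ : ℕ))) x₀ := by
    have e : (fun x => fc (x + (j₀ : ℕ))) =
        fun x => (-(c j₀)⁻¹) * ∑ j ∈ Finset.univ.erase j₀, c j * fc (x + (j : ℕ)) := by
      funext x
      have h1 := h x
      rw [← Finset.add_sum_erase _ _ (Finset.mem_univ j₀)] at h1
      have h2 : ∑ j ∈ Finset.univ.erase j₀, c j * fc (x + (j : ℕ)) = -(c j₀ * fc (x + (j₀ : ℕ))) := by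
        linarith
      rw [h2]
      field_simp
    rw [e]
    exact hd2.const_mul _
  -- derive differentiability of `|·|` at `0`
  have hd4 : DifferentiableAt ℝ (fun t : ℝ => fc (Real.pi / 2 + t)) 0 := by
    have h1 : DifferentiableAt ℝ (fun t : ℝ => x₀ + t) 0 := by fun_prop
    have h2 : DifferentiableAt ℝ (fun x => fc (x + (j₀ : ℕ))) ((fun t : ℝ => x₀ + t) 0) := by
      simpa using hd3
    have h3 := h2.comp (0 : ℝ) h1
    refine h3.congr_of_eventuallyEq (Eventually.of_forall fun t => ?_)
    simp only [Function.comp]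
    congr 1
    rw [hx₀]; ring
  have hd5 : DifferentiableAt ℝ (fun t : ℝ => |Real.sin t|) 0 := by
    have e : (fun t : ℝ => |Real.sin t|) = fun t => 2 * fc (Real.pi / 2 + t) + Real.sin t := by
      funext t
      unfold fc
      rw [add_comm (Real.pi / 2) t, Real.cos_add_pi_div_two]
      rcases le_total 0 (Real.sin t) with h0 | h0
      · rw [abs_of_nonneg h0, max_eq_right (by linarith)]; ring
      · rw [abs_of_nonpos h0, max_eq_left (by linarith)]; ring
    rw [e]
    exact (hd4.const_mul 2).add Real.differentiableAt_sin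
  have hd6 : DifferentiableAt ℝ (fun t : ℝ => |t|) 0 := by
    have h1 : DifferentiableAt ℝ Real.arcsin 0 := by
      apply Real.differentiableAt_arcsin.mpr
      constructor <;> norm_num
    have h2 : DifferentiableAt ℝ (fun t : ℝ => |Real.sin t|) (Real.arcsin 0) := by
      rw [Real.arcsin_zero]; exact hd5
    have h3 := h2.comp (0 : ℝ) h1
    refine h3.congr_of_eventuallyEq ?_
    have h4 : ∀ᶠ t : ℝ in 𝓝 0, -1 < t ∧ t < 1 :=
      (eventually_gt_nhds (by norm_num)).and (eventually_lt_nhds (by norm_num))
    filter_upwards [h4] with t ht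
    simp only [Function.comp]
    rw [Real.sin_arcsin ht.1.le ht.2.le]
  exact not_differentiableAt_abs_zero hd6

/-- `2^{-k} max(cos k, 0)` -/
noncomputable def qs (k : ℕ) : ℝ := (1 / 2) ^ k * fc k

/-- The sequence `2^{-k} max(cos k, 0)` has no rational generating function. -/
theorem qs_not_rat (P D : Polynomial ℝ) (hD : D ≠ 0)
    (h : (D : PowerSeries ℝ) * PowerSeries.mk qs = (P : PowerSeries ℝ)) : False := by
  set d := D.natDegree with hd
  set K := P.natDegree + 1 with hK
  have hrec : ∀ k : ℕ, K ≤ k → ∑ i ∈ Finset.range (d + 1), D.coeff i * qs (k + d - i) = 0 := by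
    intro k hk
    have h1 := congrArg (PowerSeries.coeff (k + d)) h
    rw [PowerSeries.coeff_mul, Polynomial.coeff_coe,
      Polynomial.coeff_eq_zero_of_natDegree_lt (by omega),
      Finset.Nat.sum_antidiagonal_eq_sum_range_succ_mk] at h1
    simp only [Polynomial.coeff_coe, PowerSeries.coeff_mk] at h1
    rw [← h1]
    apply Finset.sum_subset
    · intro i hi
      simp only [Finset.mem_range] at hi ⊢
      omega
    · intro i _ hi
      simp only [Finset.mem_range, not_lt] at hi
      rw [Polynomial.coeff_eq_zero_of_natDegree_lt (by omega), zero_mul]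
  set c : Fin (d + 1) → ℝ := fun j => D.coeff (d - j) * (1 / 2) ^ (j : ℕ) with hc
  have hF : ∀ x : ℝ, ∑ j, c j * fc (x + (j : ℕ)) = 0 := by
    intro x
    apply zero_of_nat (fun x => ∑ j, c j * fc (x + (j : ℕ))) _ _ K _ x
    · apply continuous_finsetSum
      intro j _
      exact continuous_const.mul (fc_cont.comp (continuous_id.add continuous_const))
    · intro x
      simp only
      apply Finset.sum_congr rfl
      intro j _
      congr 1
      unfold fc
      have : x + 2 * Real.pi + (j : ℕ) = (x + (j : ℕ)) + 2 * Real.pi := by ring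
      rw [this, Real.cos_add_two_pi]
    · intro k hk
      have h1 := hrec k hk
      rw [← Finset.sum_range_reflect] at h1
      rw [Finset.sum_range] at h1
      have h2 : ∀ j : Fin (d + 1), D.coeff (d + 1 - 1 - (j : ℕ)) * qs (k + d - (d + 1 - 1 - (j : ℕ)))
          = (1 / 2) ^ k * (c j * fc ((k : ℝ) + (j : ℕ))) := by
        intro j
        have e1 : k + d - (d + 1 - 1 - (j : ℕ)) = k + j := by have := j.2; omega
        have e2 : d + 1 - 1 - (j : ℕ) = d - j := by omega
        rw [e1, e2, hc]
        unfold qs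
        push_cast
        rw [pow_add]
        ring
      simp_rw [h2] at h1
      rw [← Finset.mul_sum] at h1
      rcases mul_eq_zero.mp h1 with h3 | h3
      · exact absurd h3 (by positivity)
      · exact h3
  have hc0 := kink d c hF
  apply hD
  have h4 : c 0 = 0 := by rw [hc0]; rfl
  rw [hc] at h4
  simp only [Fin.val_zero, Nat.sub_zero, pow_zero, mul_one] at h4
  exact Polynomial.leadingCoeff_eq_zero.mp h4

end Pool.Agent.L1opt
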