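import Pool.Agent.H0.L1opt.Irr
import Pool.Agent.H0.L1opt.Defs

set_option autoImplicit false
open Filter Topology

namespace Pool.Agent.L1opt

/-- `H = [0, 2^{-k}, 2^{-k} cos k]` -/
noncomputable def HH : MSeq 1 3 := fun k => Matrix.of fun _ j =>
  (![0, (1 / 2 : ℝ) ^ k, (1 / 2 : ℝ) ^ k * Real.cos k] : Fin 3 → ℝ) j

/-- `U = 1` -/
def UU : MSeq 1 1 := fun k => if k = 0 then 1 else 0

/-- `V = [1, 1, 1]` -/
def VV : MSeq 1 3 := fun k => if k = 0 then Matrix.of (fun _ _ => 1) else 0

lemma conv_U (Q : MSeq 1 1) : conv UU Q = Q := by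
  funext k
  unfold conv UU
  rw [Finset.sum_eq_single 0]
  · simp
  · intro b _ hb
    simp [hb]
  · intro h
    simp at h

lemma conv_V (Q : MSeq 1 1) (k : ℕ) (j : Fin 3) : conv Q VV k 0 j = Q k 0 0 := by
  unfold conv VV
  rw [Finset.sum_eq_single k]
  · simp [Matrix.mul_apply]
  · intro b hb hbk
    simp only [Finset.mem_range] at hb
    have : k - b ≠ 0 := by omega
    simp [this]
  · intro h
    simp at h

/-- the per-coordinate cost -/
noncomputable def cost (k : ℕ) (t : ℝ) : ℝ :=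
  |0 - t| + |(1 / 2) ^ k - t| + |(1 / 2) ^ k * Real.cos k - t|

lemma nrm_eq (Q : MSeq 1 1) : nrm (HH - conv (conv UU Q) VV) =
    ∑' k, |0 - Q k 0 0| + ∑' k, |(1 / 2) ^ k - Q k 0 0| + ∑' k : ℕ, |(1 / 2) ^ k * Real.cos k - Q k 0 0| := by
  unfold nrm
  rw [ciSup_unique, Fin.sum_univ_three, conv_U]
  simp only [Pi.sub_apply, Matrix.sub_apply]
  have e : (default : Fin 1) = 0 := rfl
  rw [e]
  simp only [conv_V]
  rfl

lemma geo : Summable fun k : ℕ => (1 / 2 : ℝ) ^ k :=
  summable_geometric_of_lt_one (by norm_num) (by norm_num)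

lemma geo_cos : Summable fun k : ℕ => (1 / 2 : ℝ) ^ k * Real.cos k := by
  apply Summable.of_norm_bounded geo
  intro k
  rw [norm_mul, norm_pow]
  have h1 : ‖(1 / 2 : ℝ)‖ = 1 / 2 := by norm_num
  rw [h1]
  exact mul_le_of_le_one_right (by positivity) (Real.abs_cos_le_one _)

lemma sum_diff {a q : ℕ → ℝ} (ha : Summable a) (hq : Summable q) : Summable fun k => |a k - q k| :=
  (ha.sub hq).abs

lemma cost_summable {q : ℕ → ℝ} (hq : Summable q) : Summable fun k => cost k (q k) :=
  ((sum_diff summable_zero hq).add (sum_diff geo hq)).add (sum_diff geo_cos hq)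

lemma nrm_cost (Q : MSeq 1 1) (hQ : Summable fun k => Q k 0 0) :
    nrm (HH - conv (conv UU Q) VV) = ∑' k, cost k (Q k 0 0) := by
  rw [nrm_eq]
  unfold cost
  rw [((sum_diff summable_zero hQ).add (sum_diff geo hQ)).tsum_add (sum_diff geo_cos hQ),
    (sum_diff summable_zero hQ).tsum_add (sum_diff geo hQ)]

lemma cost_ge (k : ℕ) (t : ℝ) : cost k (qs k) + |t - qs k| ≤ cost k t := by
  unfold cost qs fc
  have hx : (0 : ℝ) < (1 / 2) ^ k := by positivity
  have hc := Real.cos_le_one k
  set x : ℝ := (1 / 2) ^ k with hxdef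
  set c := Real.cos k
  have hy : x * c ≤ x := by nlinarith
  rcases le_total 0 c with h | h
  · rw [max_eq_left h]
    have hy0 : 0 ≤ x * c := by positivity
    rw [sub_self, abs_zero, add_zero, abs_of_nonpos (by linarith : 0 - x * c ≤ 0),
      abs_of_nonneg (by linarith : 0 ≤ x - x * c)]
    have h1 : x ≤ |0 - t| + |x - t| := by
      have := abs_sub_le 0 t x
      rw [abs_sub_comm t x] at this
      have h2 : |0 - x| = x := by rw [zero_sub, abs_neg, abs_of_pos hx]
      linarith
    rw [abs_sub_comm (x * c) t]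
    linarith
  · rw [max_eq_right h, mul_zero]
    have hy0 : x * c ≤ 0 := mul_nonpos_of_nonneg_of_nonpos hx.le h
    rw [sub_self, abs_zero, sub_zero, sub_zero, sub_zero, abs_of_pos hx, abs_of_nonpos hy0]
    have h1 : x - x * c ≤ |x - t| + |x * c - t| := by
      have := abs_sub_le x t (x * c)
      rw [abs_sub_comm t (x * c)] at this
      have h2 := le_abs_self (x - x * c)
      linarith
    rw [zero_sub, abs_neg]
    linarith

lemma qs_summable : Summable qs := by
  apply Summable.of_norm_bounded geo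
  intro k
  unfold qs fc
  rw [norm_mul, norm_pow]
  have h1 : ‖(1 / 2 : ℝ)‖ = 1 / 2 := by norm_num
  rw [h1]
  apply mul_le_of_le_one_right (by positivity)
  rw [Real.norm_eq_abs, abs_of_nonneg (le_max_right _ _)]
  exact max_le (Real.cos_le_one _) zero_le_one

/-- the optimal solution -/
noncomputable def QQ : MSeq 1 1 := fun k => Matrix.of fun _ _ => qs k

lemma isL1_iff (Q : MSeq 1 1) (hQ : IsL1 Q) : Summable fun k => Q k 0 0 := (hQ 0 0).of_abs

theorem optimal : IsOptimal HH UU VV QQ := by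
  refine ⟨fun i j => qs_summable.abs, fun Q' hQ' => ?_⟩
  have hs := isL1_iff Q' hQ'
  rw [nrm_cost Q' hs, nrm_cost QQ qs_summable]
  apply Summable.tsum_le_tsum _ (cost_summable qs_summable) (cost_summable hs)
  intro k
  have := cost_ge k (Q' k 0 0)
  have h2 := abs_nonneg (Q' k 0 0 - qs k)
  change cost k (qs k) ≤ _
  linarith

theorem unique (Q : MSeq 1 1) (hQ : IsOptimal HH UU VV Q) (k : ℕ) : Q k 0 0 = qs k := by
  have hs := isL1_iff Q hQ.1
  have h1 := hQ.2 QQ (fun i j => qs_summable.abs)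
  rw [nrm_cost Q hs, nrm_cost QQ qs_summable] at h1
  have hd : Summable fun k => |Q k 0 0 - qs k| := sum_diff hs qs_summable
  have h2 : ∑' k, (cost k (qs k) + |Q k 0 0 - qs k|) ≤ ∑' k, cost k (Q k 0 0) :=
    Summable.tsum_le_tsum (fun k => cost_ge k _) ((cost_summable qs_summable).add hd)
      (cost_summable hs)
  rw [(cost_summable qs_summable).tsum_add hd] at h2
  have h3 : ∑' k, |Q k 0 0 - qs k| ≤ 0 := by
    have h4 : ∑' k, cost k (QQ k 0 0) = ∑' k, cost k (qs k) := rfl
    linarith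
  have h5 : |Q k 0 0 - qs k| ≤ 0 := (hd.le_tsum k (fun _ _ => abs_nonneg _)).trans h3
  have h6 := abs_nonpos_iff.mp h5
  linarith

lemma rat_geo : ∃ P D : Polynomial ℝ, D ≠ 0 ∧
    (D : PowerSeries ℝ) * PowerSeries.mk (fun k => (1 / 2 : ℝ) ^ k) = (P : PowerSeries ℝ) := by
  refine ⟨1, 1 - Polynomial.C (1 / 2) * Polynomial.X, ?_, ?_⟩
  · intro h
    have := congrArg (fun p => Polynomial.coeff p 0) h
    simp at this
  · ext n
    rw [Polynomial.coe_sub, Polynomial.coe_mul, Polynomial.coe_C, Polynomial.coe_X,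
      Polynomial.coe_one, sub_mul, one_mul, mul_assoc, map_sub, PowerSeries.coeff_C_mul]
    cases n with
    | zero => simp
    | succ n =>
      rw [PowerSeries.coeff_succ_X_mul, PowerSeries.coeff_mk, PowerSeries.coeff_mk,
        PowerSeries.coeff_one, if_neg (Nat.succ_ne_zero n), pow_succ]
      ring

lemma rat_cos : ∃ P D : Polynomial ℝ, D ≠ 0 ∧
    (D : PowerSeries ℝ) * PowerSeries.mk (fun k => (1 / 2 : ℝ) ^ k * Real.cos k)
      = (P : PowerSeries ℝ) := by
  refine ⟨1 - Polynomial.C (Real.cos 1 / 2) * Polynomial.X,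
    1 - Polynomial.C (Real.cos 1) * Polynomial.X
      + Polynomial.C (1 / 4) * (Polynomial.X * Polynomial.X), ?_, ?_⟩
  · intro h
    have := congrArg (fun p => Polynomial.coeff p 0) h
    simp at this
  · ext n
    simp only [Polynomial.coe_sub, Polynomial.coe_add, Polynomial.coe_mul, Polynomial.coe_C,
      Polynomial.coe_X, Polynomial.coe_one, sub_mul, add_mul, one_mul, mul_assoc, map_sub, map_add,
      PowerSeries.coeff_C_mul]
    rcases n with _ | _ | n
    · simp
    · simp [PowerSeries.coeff_one, PowerSeries.coeff_X]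
      ring
    · rw [PowerSeries.coeff_succ_X_mul, PowerSeries.coeff_succ_X_mul, PowerSeries.coeff_succ_X_mul,
        PowerSeries.coeff_mk, PowerSeries.coeff_mk, PowerSeries.coeff_mk,
        PowerSeries.coeff_one, if_neg (by omega), PowerSeries.coeff_X, if_neg (by omega)]
      have h1 : Real.cos ((n + 1 + 1 : ℕ) : ℝ) = 2 * Real.cos 1 * Real.cos ((n + 1 : ℕ) : ℝ)
          - Real.cos (n : ℝ) := by
        have e1 : ((n + 1 + 1 : ℕ) : ℝ) = ((n + 1 : ℕ) : ℝ) + 1 := by push_cast; ring
        have e2 : (n : ℝ) = ((n + 1 : ℕ) : ℝ) - 1 := by push_cast; ring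
        rw [e1, Real.cos_add]
        conv_rhs => rw [e2, Real.cos_sub]
        ring
      rw [h1, pow_succ, pow_succ]
      ring

lemma rat_const (c : ℝ) : ∃ P D : Polynomial ℝ, D ≠ 0 ∧
    (D : PowerSeries ℝ) * PowerSeries.mk (fun k => if k = 0 then c else 0) = (P : PowerSeries ℝ) := by
  refine ⟨Polynomial.C c, 1, one_ne_zero, ?_⟩
  ext n
  rw [Polynomial.coe_one, one_mul, PowerSeries.coeff_mk, Polynomial.coe_C, PowerSeries.coeff_C]

theorem H_rat : IsRat HH := by
  intro i j
  fin_cases j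
  · refine ⟨0, 1, one_ne_zero, ?_⟩
    ext n
    simp [hat, HH]
  · exact rat_geo
  · exact rat_cos

theorem U_rat : IsRat UU := by
  intro i j
  obtain ⟨P, D, h1, h2⟩ := rat_const 1
  refine ⟨P, D, h1, ?_⟩
  rw [← h2]
  congr 1
  unfold hat
  congr 1
  funext k
  have hi : i = 0 := Subsingleton.elim _ _
  have hj : j = 0 := Subsingleton.elim _ _
  subst hi hj
  unfold UU
  split_ifs <;> simp

theorem V_rat : IsRat VV := by
  intro i j
  obtain ⟨P, D, h1, h2⟩ := rat_const 1
  refine ⟨P, D, h1, ?_⟩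
  rw [← h2]
  congr 1
  unfold hat
  congr 1
  funext k
  unfold VV
  split_ifs <;> simp

theorem multi : ¬ (FullRow UU ∧ FullCol VV) := by
  rintro ⟨-, h⟩
  have h1 := h ![1, -1, 0] (by
    intro i
    rw [Fin.sum_univ_three]
    have e : ∀ j, hat VV i j = hat VV i 0 := by
      intro j
      unfold hat VV
      congr 1
      funext k
      split_ifs <;> simp
    rw [e 1]
    simp)
  have h2 := congrFun h1 0
  simp at h2

theorem H_l1 : IsL1 HH := by
  intro i j
  fin_cases j
  · simp [HH]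
  · exact geo.abs
  · exact geo_cos.abs

theorem U_l1 : IsL1 UU := by
  intro i j
  apply summable_of_ne_finset_zero (s := {0})
  intro k hk
  have : k ≠ 0 := by simpa using hk
  simp [UU, this]

theorem V_l1 : IsL1 VV := by
  intro i j
  apply summable_of_ne_finset_zero (s := {0})
  intro k hk
  have : k ≠ 0 := by simpa using hk
  simp [VV, this]

theorem not_rat (Q : MSeq 1 1) (hQ : IsOptimal HH UU VV Q) : ¬ IsRat Q := by
  intro h
  obtain ⟨P, D, h1, h2⟩ := h 0 0
  apply qs_not_rat P D h1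
  rw [← h2]
  congr 1
  unfold hat
  congr 1
  funext k
  exact (unique Q hQ k).symm

end Pool.Agent.L1opt
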